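import Pool.Agent.H.MP_e7fd15_co.A

set_option autoImplicit false

namespace Pool.Agent.Results.MP_e7fd15_co.No

open SimpleGraph Finset

/-- F partitions the edges of G into k forests. -/
def IsDec {n : ℕ} (G : SimpleGraph (Fin n)) (k : ℕ) (F : Fin k → SimpleGraph (Fin n)) : Prop :=
  (∀ i, F i ≤ G ∧ (F i).IsAcyclic) ∧ ∀ u v, G.Adj u v → ∃! i, (F i).Adj u v

/-- Every component of every F i has diameter at most d. -/
def Diam {n k : ℕ} (d : ℕ) (F : Fin k → SimpleGraph (Fin n)) : Prop :=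
  ∀ i u v, (F i).Reachable u v → (F i).dist u v ≤ d

noncomputable def arb {n : ℕ} (G : SimpleGraph (Fin n)) : ℕ := sInf {k | ∃ F, IsDec G k F}

noncomputable def arbD {n : ℕ} (d : ℕ) (G : SimpleGraph (Fin n)) : ℕ :=
  sInf {k | ∃ F, IsDec G k F ∧ Diam d F}

open Pool.Agent.H.MP_e7fd15_co in
theorem main (m h s : ℕ) (hn : 2 * m * (3 * m + h - 1) ^ h < (3 * m + h + s) ^ h) (hm : 1 ≤ m)
    (n : ℕ) (G : SimpleGraph (Fin n)) (hG : ∃ F, IsDec G (2 * m) F) :
    ∃ F, IsDec G (3 * m + h + s) F ∧ Diam 4 F := by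
  classical
  obtain ⟨F, h1, h2⟩ := hG
  choose p hp using fun i => par (F i) (h1 i).2
  set out : Fin n → Finset (Fin n) := fun v =>
    {w | G.Adj v w ∧ (∃ i, p i v = w) ∧ ¬ ((∃ i, p i w = v) ∧ w < v)} with ho
  obtain ⟨Z0, Z1, col, a1, a2, a3⟩ := levels hn (by omega) out (fun v => by
      refine (card_le_card (t := univ.image fun i => p i v) fun w hw => ?_).trans
        (card_image_le.trans (by simp))
      simp only [ho, mem_filter, mem_univ, true_and] at hw
      simpa using hw.2.1) (fun v => by simp [ho]) _ univ rfl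
  simp only [mem_univ, true_imp_iff, inter_univ] at a1 a2 a3
  have b1 : ∀ c v, ∃ w, (w = v ∨ w ∈ out v ∧ col v w = c) ∧
      ∀ x ∈ out v, col v x = c → w = x := fun c v => by
    by_cases e : ∃ w ∈ out v, col v w = c
    · obtain ⟨w, w1, w2⟩ := e
      exact ⟨w, Or.inr ⟨w1, w2⟩, fun x x1 x2 => a2 v w1 x1 (w2.trans x2.symm)⟩
    · exact ⟨v, Or.inl rfl, fun x x1 x2 => (e ⟨x, x1, x2⟩).elim⟩
  choose q q1 q2 using b1
  have og : ∀ v w, w ∈ out v → G.Adj v w := fun v w hw => by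
    simp only [ho, mem_filter] at hw; exact hw.2.1
  have qa : ∀ c u v, u ≠ v → (q c u = v ↔ v ∈ out u ∧ col u v = c) := fun c u v huv =>
    ⟨fun e => by
      rcases q1 c u with h | h
      · exact (huv (h.symm.trans e)).elim
      · exact e ▸ h, fun e => q2 c u v e.1 e.2⟩
  have sh := fun c => shallow (q c)
    (fun v => (if c ∈ Z0 v then 0 else 1) + if c ∈ Z1 v then 0 else 1)
    (fun v => by split_ifs <;> omega) fun v hv => by
      obtain ⟨e1, e2⟩ := (qa c v _ hv.symm).1 rfl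
      have e3 := a3 v _ e1
      rw [e2] at e3
      have e4 := @(a1 v).1 c
      have e5 := @(a1 (q c v)).1 c
      split_ifs <;> first | omega | tauto
  refine ⟨fun c => fromRel fun a b => q c a = b, ⟨fun c => ⟨fun u v huv => ?_, (sh c).1⟩,
    fun u v huv => ?_⟩, fun c => (sh c).2⟩
  · obtain ⟨e, e1 | e1⟩ := (fromRel_adj _ _ _).1 huv
    · exact og _ _ ((qa c u v e).1 e1).1
    · exact (og _ _ ((qa c v u e.symm).1 e1).1).symm
  · have x1 : v ∈ out u ↔ u ∉ out v := by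
      obtain ⟨i, hi, -⟩ := h2 u v huv
      have e : (∃ i, p i u = v) ∨ ∃ i, p i v = u := (hp i u v hi).imp (⟨i, ·⟩) (⟨i, ·⟩)
      have e1 := huv.ne
      simp only [ho, mem_filter, mem_univ, true_and, huv, huv.symm]
      by_cases e2 : u < v
      · have : ¬ v < u := by omega
        tauto
      · have : v < u := by omega
        tauto
    simp only [fromRel_adj, qa _ u v huv.ne, qa _ v u huv.ne', huv.ne, ne_eq, not_false_eq_true,
      true_and]
    by_cases e : v ∈ out u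
    · exact ⟨col u v, Or.inl ⟨e, rfl⟩, fun c hc => (hc.resolve_right fun h => x1.1 e h.1).2.symm⟩
    · exact ⟨col v u, Or.inr ⟨by tauto, rfl⟩, fun c hc => (hc.resolve_left fun h => e h.1).2.symm⟩

theorem result : (∀ m h s : ℕ, 1 ≤ m → 2 * m * (3 * m + h - 1) ^ h < (3 * m + h + s) ^ h →
    ∀ (n : ℕ) (G : SimpleGraph (Fin n)), (∃ F, IsDec G (2 * m) F) →
      ∃ F, IsDec G (3 * m + h + s) F ∧ Diam 4 F) ∧
    ¬ ∃ d, 4 ≤ d ∧ ∀ k, 1 ≤ k → ∃ (n : ℕ) (G : SimpleGraph (Fin n)),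
      arb G = k ∧ arbD d G = 2 * k := by
  refine ⟨fun m h s hm hn => main m h s hn hm, ?_⟩
  rintro ⟨d, hd, H⟩
  obtain ⟨n, G, h1, h2⟩ := H 200 (by norm_num)
  have h3 := Nat.sInf_mem (Nat.nonempty_of_pos_sInf (s := {k | ∃ F, IsDec G k F})
    (by unfold arb at h1; omega))
  unfold arb at h1
  rw [h1] at h3
  obtain ⟨F, f1, f2⟩ := main 100 50 49 (by norm_num) (by norm_num) n G h3
  have := Nat.sInf_le (s := {k | ∃ F, IsDec G k F ∧ Diam d F}) (m := 3 * 100 + 50 + 49)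
    ⟨F, f1, fun i u v h => (f2 i u v h).trans hd⟩
  unfold arbD at h2
  omega

end Pool.Agent.Results.MP_e7fd15_co.No
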